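import Pool.Agent.Q42.UT.Stm

/-!
# Project UT, jobs RC0, INJ, WUN, MNU, IW
-/

set_option autoImplicit false

open MeasureTheory Set Filter Topology
open scoped ENNReal unitInterval

namespace Pool.Agent.Q186.UT

theorem lint_pow (s : ℝ) (hs : 0 ≤ s) :
    ∫⁻ u : I, ENNReal.ofReal ((u : ℝ) ^ s) = ENNReal.ofReal (1 / (1 + s)) := by
  have h1 : ∫⁻ u : I, ENNReal.ofReal ((u : ℝ) ^ s) =
      ∫⁻ x in (Icc (0 : ℝ) 1), ENNReal.ofReal (x ^ s) := by
    rw [← unitInterval.measurePreserving_coe.map_eq,
      unitInterval.measurableEmbedding_coe.lintegral_map]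
  have hi : IntervalIntegrable (fun x : ℝ => x ^ s) volume 0 1 :=
    intervalIntegral.intervalIntegrable_rpow' (by linarith)
  have hi2 : IntegrableOn (fun x : ℝ => x ^ s) (Icc 0 1) := by
    rw [integrableOn_Icc_iff_integrableOn_Ioc]
    exact (intervalIntegrable_iff_integrableOn_Ioc_of_le zero_le_one).1 hi
  rw [h1, ← ofReal_integral_eq_lintegral_ofReal hi2]
  · congr 1
    rw [integral_Icc_eq_integral_Ioc, ← intervalIntegral.integral_of_le zero_le_one,
      integral_rpow (Or.inl (by linarith))]
    rw [Real.one_rpow, Real.zero_rpow (by linarith), sub_zero, add_comm s 1]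
  · refine (ae_restrict_mem measurableSet_Icc).mono fun x hx => ?_
    exact Real.rpow_nonneg hx.1 s

theorem rc0 (n : ℕ) (c : Fin n → ℝ) (hc : ∀ w, 0 ≤ c w) :
    (Measure.pi fun _ : Fin (n + 1) => (volume : Measure I))
      {U | ∀ w : Fin n, ((U w.succ : I) : ℝ) < ((U 0 : I) : ℝ) ^ c w} =
    ENNReal.ofReal (1 / (1 + ∑ w, c w)) := by
  have hmp := measurePreserving_piFinSuccAbove (fun _ : Fin (n + 1) => (volume : Measure I)) 0
  set e := MeasurableEquiv.piFinSuccAbove (fun _ : Fin (n + 1) => I) 0
  set S : Set (I × (Fin n → I)) := {p | ∀ w : Fin n, ((p.2 w : I) : ℝ) < ((p.1 : I) : ℝ) ^ c w}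
    with hS
  have hSm : MeasurableSet S := by
    rw [hS, Set.ofPred_forall]
    refine MeasurableSet.iInter fun w => measurableSet_lt ?_ ?_
    · exact measurable_subtype_coe.comp ((measurable_pi_apply w).comp measurable_snd)
    · exact (measurable_subtype_coe.comp measurable_fst).pow_const _
  have h1 : {U : Fin (n + 1) → I | ∀ w : Fin n, ((U w.succ : I) : ℝ) < ((U 0 : I) : ℝ) ^ c w} =
      e ⁻¹' S := by
    ext U
    simp [e, S, Fin.insertNthEquiv, Fin.tail]
  rw [h1, hmp.measure_preimage hSm.nullMeasurableSet, Measure.prod_apply hSm]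
  have h2 : ∀ u : I, (Measure.pi fun _ : Fin n => (volume : Measure I)) (Prod.mk u ⁻¹' S) =
      ENNReal.ofReal ((u : ℝ) ^ (∑ w, c w)) := by
    intro u
    have hu0 : 0 ≤ (u : ℝ) := u.2.1
    have hu1 : (u : ℝ) ≤ 1 := u.2.2
    have h3 : Prod.mk u ⁻¹' S = Set.pi univ fun w : Fin n =>
        Iio (⟨(u : ℝ) ^ c w, Real.rpow_nonneg hu0 _, Real.rpow_le_one hu0 hu1 (hc w)⟩ : I) := by
      ext V
      simp only [S, mem_preimage, Set.mem_ofPred_eq, Set.mem_pi, mem_univ, true_imp_iff, mem_Iio]
      rfl
    rw [h3, Measure.pi_pi]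
    simp only [unitInterval.volume_Iio]
    rw [← ENNReal.ofReal_prod_of_nonneg fun w _ => Real.rpow_nonneg hu0 _,
      ← Real.rpow_sum_of_nonneg hu0 fun w _ => hc w]
  have h4 : ∫⁻ u : I, (Measure.pi fun _ : Fin n => (volume : Measure I)) (Prod.mk u ⁻¹' S) =
      ∫⁻ u : I, ENNReal.ofReal ((u : ℝ) ^ (∑ w, c w)) := lintegral_congr h2
  exact h4.trans (lint_pow _ (Finset.sum_nonneg fun w _ => hc w))

theorem inj (V : Type) [Countable V] :
    ∀ᵐ a ∂(Measure.infinitePi fun _ : V => (volume : Measure I)), Function.Injective a := by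
  have h1 : ∀ v w : V, v ≠ w →
      ∀ᵐ a ∂(Measure.infinitePi fun _ : V => (volume : Measure I)), a v ≠ a w := by
    intro v w hvw
    have hind : ProbabilityTheory.iIndepFun (fun (i : V) (a : V → I) => a i)
        (Measure.infinitePi fun _ : V => (volume : Measure I)) := by
      have := ProbabilityTheory.iIndepFun_infinitePi (P := fun _ : V => (volume : Measure I))
        (X := fun _ => id) (fun _ => measurable_id)
      simpa using this
    have h2 := hind.indepFun hvw
    rw [ProbabilityTheory.indepFun_iff_map_prod_eq_prod_map_map (measurable_pi_apply v).aemeasurable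
      (measurable_pi_apply w).aemeasurable] at h2
    rw [Measure.infinitePi_map_eval, Measure.infinitePi_map_eval] at h2
    have hd : MeasurableSet {p : I × I | p.1 = p.2} :=
      measurableSet_eq_fun measurable_fst measurable_snd
    have h3 : ((volume : Measure I).prod (volume : Measure I)) {p : I × I | p.1 = p.2} = 0 := by
      rw [Measure.measure_prod_null hd]
      refine Eventually.of_forall fun x => ?_
      have : Prod.mk x ⁻¹' {p : I × I | p.1 = p.2} = {x} := by
        ext y
        simp [eq_comm]
      show volume (Prod.mk x ⁻¹' {p : I × I | p.1 = p.2}) = 0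
      rw [this]
      simp
    rw [← h2, Measure.map_apply ((measurable_pi_apply v).prodMk (measurable_pi_apply w)) hd] at h3
    rw [ae_iff]
    simpa using h3
  have h2 : ∀ᵐ a ∂(Measure.infinitePi fun _ : V => (volume : Measure I)), ∀ v w : V, v ≠ w →
      a v ≠ a w := by
    rw [ae_all_iff]
    intro v
    rw [ae_all_iff]
    intro w
    by_cases h : v = w
    · exact Eventually.of_forall fun a h' => absurd h h'
    · filter_upwards [h1 v w h] with a ha _ using ha
  filter_upwards [h2] with a ha v w hvw
  by_contra h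
  exact ha v w h hvw

end Pool.Agent.Q186.UT

namespace Pool.Agent.Q42.UT

open MeasureTheory Set Filter Topology
open scoped ENNReal unitInterval
open Pool.Agent.TH968.UST

theorem t_RC0 : S_RC0 := fun n c hc => Pool.Agent.Q186.UT.rc0 n c hc

theorem t_INJ : S_INJ := fun V _ => Pool.Agent.Q186.UT.inj V

theorem t_WUN : S_WUN := by
  intro V p U z z' h h'
  by_contra hne
  have h1 := h.2 z' (Ne.symm hne)
  have h2 := h'.2 z hne
  rcases h1 with h1 | h1
  · exact h'.1 h1
  rcases h2 with h2 | h2
  · exact h.1 h2
  exact lt_asymm h1 h2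

theorem mpn (V : Type) [Countable V] (n : ℕ) : ∀ x z : V,
    Measurable fun g : SimpleGraph V => pn g n x z := by
  classical
  induction n with
  | zero =>
    intro x z
    exact measurable_const
  | succ n ih =>
    intro x z
    show Measurable fun g : SimpleGraph V => avg g (fun w => pn g n w z) x
    unfold avg
    refine Measurable.div ?_ ?_
    · refine Measurable.tsum fun w => ?_
      exact Measurable.ite (measurableSet_adj x w) (ih w z) measurable_const
    · refine Measurable.tsum fun w => ?_
      exact Measurable.ite (measurableSet_adj x w) measurable_const measurable_const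

theorem t_MNU : S_MNU := by
  intro V _ N x z
  unfold nu
  exact (Finset.measurable_sum _ fun n _ => mpn V n x z).div_const _

theorem pn_comap {V : Type} (s : Equiv.Perm V) (g : SimpleGraph V) (n : ℕ) : ∀ x z : V,
    pn (g.comap s) n x z = pn g n (s x) (s z) := by
  classical
  induction n with
  | zero =>
    intro x z
    simp only [pn]
    by_cases h : x = z
    · rw [if_pos h, if_pos (congrArg s h)]
    · rw [if_neg h, if_neg fun h' => h (s.injective h')]
  | succ n ih =>
    intro x z
    show avg (g.comap s) (fun w => pn (g.comap s) n w z) x = avg g (fun w => pn g n w (s z)) (s x)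
    unfold avg
    simp only [ih, SimpleGraph.comap_adj]
    congr 1
    · exact s.tsum_eq (fun w => if g.Adj (s x) w then pn g n w (s z) else 0)
    · exact s.tsum_eq (fun w => if g.Adj (s x) w then (1 : ℝ≥0∞) else 0)

theorem nu_comap {V : Type} (s : Equiv.Perm V) (g : SimpleGraph V) (N : ℕ) (x z : V) :
    nu (g.comap s) N x z = nu g N (s x) (s z) := by
  unfold nu
  simp only [pn_comap]

theorem t_IW : S_IW := by
  intro V Ns s g r j x z
  unfold WinJ Win
  simp only [nu_comap]
  refine and_congr Iff.rfl ?_
  constructor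
  · intro h w hw
    obtain ⟨w', rfl⟩ := s.surjective w
    exact h w' fun h' => hw (congrArg s h')
  · intro h w hw
    exact h (s w) fun h' => hw (s.injective h')

end Pool.Agent.Q42.UT
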